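import Mathlib

/-!
# Convergence in law of random complex numbers and closed sets
-/

set_option autoImplicit false
open MeasureTheory Filter Topology
open scoped ENNReal

namespace Pool.Agent.U389.ZL

/-- the bundled law -/
noncomputable def pmC (ρ : Measure ℂ) (h : IsProbabilityMeasure ρ) : ProbabilityMeasure ℂ := ⟨ρ, h⟩

section

variable {Z : Type*} [MeasurableSpace Z] {Q : Measure Z} [IsProbabilityMeasure Q] {X : ℕ → Z → ℂ}
  {ν : Measure ℂ} [IsProbabilityMeasure ν]

theorem law_tendsto (hX : ∀ n, AEMeasurable (X n) Q)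
    (h : ∀ τ : ℂ, Tendsto (fun n => ∫ z, Complex.exp (Complex.I *
        ((τ.re * (X n z).re + τ.im * (X n z).im : ℝ) : ℂ)) ∂Q) atTop
      (𝓝 (∫ x : ℂ, Complex.exp (Complex.I * ((τ.re * x.re + τ.im * x.im : ℝ) : ℂ)) ∂ν))) :
    Tendsto (fun n => pmC (Q.map (X n)) (Measure.isProbabilityMeasure_map (hX n))) atTop
      (𝓝 (pmC ν inferInstance)) := by
  refine ProbabilityMeasure.tendsto_of_tendsto_charFun fun τ => ?_
  have e0 : ∀ x : ℂ, Complex.exp ((inner ℝ x τ : ℝ) * Complex.I) =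
      Complex.exp (Complex.I * ((τ.re * x.re + τ.im * x.im : ℝ) : ℂ)) := by
    intro x
    congr 1
    rw [Complex.inner, mul_comm]
    congr 2
    simp [Complex.mul_re]
  have e1 : ∀ n, charFun (Q.map (X n)) τ = ∫ z, Complex.exp (Complex.I *
      ((τ.re * (X n z).re + τ.im * (X n z).im : ℝ) : ℂ)) ∂Q := by
    intro n
    rw [charFun_apply, integral_map (hX n) (by fun_prop)]
    exact integral_congr_ae (Eventually.of_forall fun z => e0 _)
  have e2 : charFun ν τ =
      ∫ x : ℂ, Complex.exp (Complex.I * ((τ.re * x.re + τ.im * x.im : ℝ) : ℂ)) ∂ν := by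
    rw [charFun_apply]
    exact integral_congr_ae (Eventually.of_forall fun z => e0 _)
  show Tendsto (fun n => charFun (Q.map (X n)) τ) atTop (𝓝 (charFun ν τ))
  simp_rw [e1]
  rw [e2]
  exact h τ

theorem closed_le (hX : ∀ n, AEMeasurable (X n) Q)
    (h : ∀ τ : ℂ, Tendsto (fun n => ∫ z, Complex.exp (Complex.I *
        ((τ.re * (X n z).re + τ.im * (X n z).im : ℝ) : ℂ)) ∂Q) atTop
      (𝓝 (∫ x : ℂ, Complex.exp (Complex.I * ((τ.re * x.re + τ.im * x.im : ℝ) : ℂ)) ∂ν)))
    {F : Set ℂ} (hF : IsClosed F) {ε : ℝ} (hε : 0 < ε) :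
    ∀ᶠ n in atTop, Q.real {z | X n z ∈ F} ≤ ν.real F + ε := by
  have h1 := ProbabilityMeasure.limsup_measure_closed_le_of_tendsto (law_tendsto hX h) hF
  have h2 : ν F < ENNReal.ofReal (ν.real F + ε) := by
    rw [ENNReal.lt_ofReal_iff_toReal_lt (measure_ne_top _ _)]
    show ν.real F < _
    linarith
  have h3 := eventually_lt_of_limsup_lt (lt_of_le_of_lt h1 h2)
  filter_upwards [h3] with n hn
  have e1 : (Q.map (X n)) F = Q {z | X n z ∈ F} :=
    Measure.map_apply_of_aemeasurable (hX n) hF.measurableSet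
  have hn' : Q {z | X n z ∈ F} < ENNReal.ofReal (ν.real F + ε) := by
    rw [← e1]
    exact hn
  rw [ENNReal.lt_ofReal_iff_toReal_lt (measure_ne_top _ _)] at hn'
  exact hn'.le

end

end Pool.Agent.U389.ZL
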