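import Mathlib

/-!
# Convergence in law of random vectors and closed sets; alternations
-/

set_option autoImplicit false
open MeasureTheory Filter Topology
open scoped ENNReal

namespace Pool.Agent.U389.ZL

/-- the bundled law -/
noncomputable def pmE {N : ℕ} (ρ : Measure (EuclideanSpace ℝ (Fin N))) (h : IsProbabilityMeasure ρ) :
    ProbabilityMeasure (EuclideanSpace ℝ (Fin N)) := ⟨ρ, h⟩

section

variable {Z : Type*} [MeasurableSpace Z] {Q : Measure Z} [IsProbabilityMeasure Q] {N : ℕ}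
  {X : ℕ → Z → EuclideanSpace ℝ (Fin N)}
  {ν : Measure (EuclideanSpace ℝ (Fin N))} [IsProbabilityMeasure ν]

theorem law_tendstoE (hX : ∀ n, AEMeasurable (X n) Q)
    (h : ∀ τ : Fin N → ℝ, Tendsto (fun n => ∫ z, Complex.exp (Complex.I *
        ((∑ i, τ i * X n z i : ℝ) : ℂ)) ∂Q) atTop
      (𝓝 (∫ x : EuclideanSpace ℝ (Fin N),
        Complex.exp (Complex.I * ((∑ i, τ i * x i : ℝ) : ℂ)) ∂ν))) :
    Tendsto (fun n => pmE (Q.map (X n)) (Measure.isProbabilityMeasure_map (hX n))) atTop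
      (𝓝 (pmE ν inferInstance)) := by
  refine ProbabilityMeasure.tendsto_of_tendsto_charFun fun τ => ?_
  have e0 : ∀ x : EuclideanSpace ℝ (Fin N), Complex.exp ((inner ℝ x τ : ℝ) * Complex.I) =
      Complex.exp (Complex.I * ((∑ i, τ i * x i : ℝ) : ℂ)) := by
    intro x
    congr 1
    rw [mul_comm]
    congr 2
  have e1 : ∀ n, charFun (Q.map (X n)) τ = ∫ z, Complex.exp (Complex.I *
      ((∑ i, τ i * X n z i : ℝ) : ℂ)) ∂Q := by
    intro n
    rw [charFun_apply, integral_map (hX n) (by fun_prop)]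
    exact integral_congr_ae (Eventually.of_forall fun z => e0 _)
  have e2 : charFun ν τ =
      ∫ x : EuclideanSpace ℝ (Fin N),
        Complex.exp (Complex.I * ((∑ i, τ i * x i : ℝ) : ℂ)) ∂ν := by
    rw [charFun_apply]
    exact integral_congr_ae (Eventually.of_forall fun z => e0 _)
  show Tendsto (fun n => charFun (Q.map (X n)) τ) atTop (𝓝 (charFun ν τ))
  simp_rw [e1]
  rw [e2]
  exact h (fun i => τ i)

theorem closed_leE (hX : ∀ n, AEMeasurable (X n) Q)
    (h : ∀ τ : Fin N → ℝ, Tendsto (fun n => ∫ z, Complex.exp (Complex.I *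
        ((∑ i, τ i * X n z i : ℝ) : ℂ)) ∂Q) atTop
      (𝓝 (∫ x : EuclideanSpace ℝ (Fin N),
        Complex.exp (Complex.I * ((∑ i, τ i * x i : ℝ) : ℂ)) ∂ν)))
    {F : Set (EuclideanSpace ℝ (Fin N))} (hF : IsClosed F) {ε : ℝ} (hε : 0 < ε) :
    ∀ᶠ n in atTop, Q.real {z | X n z ∈ F} ≤ ν.real F + ε := by
  have h1 := ProbabilityMeasure.limsup_measure_closed_le_of_tendsto (law_tendstoE hX h) hF
  have h2 : ν F < ENNReal.ofReal (ν.real F + ε) := by
    rw [ENNReal.lt_ofReal_iff_toReal_lt (measure_ne_top _ _)]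
    show ν.real F < _
    linarith
  have h3 := eventually_lt_of_limsup_lt (lt_of_le_of_lt h1 h2)
  filter_upwards [h3] with n hn
  have e1 : (Q.map (X n)) F = Q {z | X n z ∈ F} :=
    Measure.map_apply_of_aemeasurable (hX n) hF.measurableSet
  have hn' : Q {z | X n z ∈ F} < ENNReal.ofReal (ν.real F + ε) := by
    rw [← e1]
    exact hn
  rw [ENNReal.lt_ofReal_iff_toReal_lt (measure_ne_top _ _)] at hn'
  exact hn'.le

end

/-- the finite sequence `y` has a subsequence of `m + 1` terms which lie alternately above `c + ε` and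
below `c - ε` -/
def Alt (c ε : ℝ) {K : ℕ} (y : Fin (K + 1) → ℝ) (m : ℕ) : Prop :=
  ∃ i : Fin (m + 1) → Fin (K + 1), StrictMono i ∧ ∀ j : Fin m,
    (c + ε ≤ y (i j.castSucc) ∧ y (i j.succ) ≤ c - ε) ∨
    (y (i j.castSucc) ≤ c - ε ∧ c + ε ≤ y (i j.succ))

theorem Alt_mono {c ε ε' : ℝ} (h : ε' ≤ ε) {K : ℕ} {y : Fin (K + 1) → ℝ} {m : ℕ}
    (hy : Alt c ε y m) : Alt c ε' y m := by
  obtain ⟨i, hi, h2⟩ := hy
  refine ⟨i, hi, fun j => ?_⟩
  rcases h2 j with h3 | h3
  · exact Or.inl ⟨by linarith [h3.1], by linarith [h3.2]⟩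
  · exact Or.inr ⟨by linarith [h3.1], by linarith [h3.2]⟩

theorem Alt_closed {T : Type*} [TopologicalSpace T] (c ε : ℝ) {K : ℕ} {φ : T → Fin (K + 1) → ℝ}
    (hφ : ∀ i, Continuous fun x => φ x i) (m : ℕ) : IsClosed {x | Alt c ε (φ x) m} := by
  have e : {x | Alt c ε (φ x) m} = ⋃ i : Fin (m + 1) → Fin (K + 1), {x | StrictMono i ∧
      ∀ j : Fin m, (c + ε ≤ φ x (i j.castSucc) ∧ φ x (i j.succ) ≤ c - ε) ∨
        (φ x (i j.castSucc) ≤ c - ε ∧ c + ε ≤ φ x (i j.succ))} := by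
    ext x
    simp only [Set.mem_iUnion]
    rfl
  rw [e]
  refine isClosed_iUnion_of_finite fun i => ?_
  by_cases hi : StrictMono i
  · have e2 : {x | StrictMono i ∧
      ∀ j : Fin m, (c + ε ≤ φ x (i j.castSucc) ∧ φ x (i j.succ) ≤ c - ε) ∨
        (φ x (i j.castSucc) ≤ c - ε ∧ c + ε ≤ φ x (i j.succ))} =
      ⋂ j : Fin m, ({x | c + ε ≤ φ x (i j.castSucc)} ∩ {x | φ x (i j.succ) ≤ c - ε}) ∪
        ({x | φ x (i j.castSucc) ≤ c - ε} ∩ {x | c + ε ≤ φ x (i j.succ)}) := by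
      ext x
      simp only [Set.mem_iInter]
      exact ⟨fun h => h.2, fun h => ⟨hi, h⟩⟩
    rw [e2]
    refine isClosed_iInter fun j => IsClosed.union (IsClosed.inter ?_ ?_) (IsClosed.inter ?_ ?_)
    · exact isClosed_le continuous_const (hφ _)
    · exact isClosed_le (hφ _) continuous_const
    · exact isClosed_le (hφ _) continuous_const
    · exact isClosed_le continuous_const (hφ _)
  · have e2 : {x | StrictMono i ∧
      ∀ j : Fin m, (c + ε ≤ φ x (i j.castSucc) ∧ φ x (i j.succ) ≤ c - ε) ∨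
        (φ x (i j.castSucc) ≤ c - ε ∧ c + ε ≤ φ x (i j.succ))} = ∅ := by
      ext x
      exact ⟨fun h => (hi h.1).elim, fun h => h.elim⟩
    rw [e2]
    exact isClosed_empty

/-- alternations produce zeros -/
theorem Alt_zeros {c ε : ℝ} (hε : 0 < ε) {K : ℕ} {g : ℝ → ℝ} (hg : Continuous g)
    {s : Fin (K + 1) → ℝ} (hs : StrictMono s) {m : ℕ} (h : Alt c ε (fun i => g (s i)) m) :
    (m : ENat) ≤ ({t | t ∈ Set.Ico (s 0) (s (Fin.last K)) ∧ g t = c} : Set ℝ).encard := by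
  obtain ⟨i, hi, h2⟩ := h
  have hz : ∀ j : Fin m, ∃ t ∈ Set.Ico (s (i j.castSucc)) (s (i j.succ)), g t = c := by
    intro j
    have hlt : s (i j.castSucc) < s (i j.succ) := hs (hi Fin.castSucc_lt_succ)
    rcases h2 j with h3 | h3
    · have h1 := intermediate_value_Icc' hlt.le hg.continuousOn
      have h4 : c ∈ Set.Icc (g (s (i j.succ))) (g (s (i j.castSucc))) :=
        ⟨by linarith [h3.2], by linarith [h3.1]⟩
      obtain ⟨t, ht, ht0⟩ := h1 h4
      refine ⟨t, ⟨ht.1, lt_of_le_of_ne ht.2 ?_⟩, ht0⟩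
      rintro rfl
      linarith [h3.2]
    · have h1 := intermediate_value_Icc hlt.le hg.continuousOn
      have h4 : c ∈ Set.Icc (g (s (i j.castSucc))) (g (s (i j.succ))) :=
        ⟨by linarith [h3.1], by linarith [h3.2]⟩
      obtain ⟨t, ht, ht0⟩ := h1 h4
      refine ⟨t, ⟨ht.1, lt_of_le_of_ne ht.2 ?_⟩, ht0⟩
      rintro rfl
      linarith [h3.2]
  choose t ht ht0 using hz
  have hmono : StrictMono t := by
    intro a b hab
    have h1 : t a < s (i a.succ) := (ht a).2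
    have h3 : s (i b.castSucc) ≤ t b := (ht b).1
    have h4 : s (i a.succ) ≤ s (i b.castSucc) :=
      hs.monotone (hi.monotone (by
        rw [Fin.le_def]
        simp only [Fin.val_succ, Fin.val_castSucc]
        exact hab))
    linarith
  have hsub : Set.range t ⊆ {t | t ∈ Set.Ico (s 0) (s (Fin.last K)) ∧ g t = c} := by
    rintro _ ⟨a, rfl⟩
    refine ⟨⟨(hs.monotone (Fin.zero_le _)).trans (ht a).1,
      lt_of_lt_of_le (ht a).2 (hs.monotone (Fin.le_last _))⟩, ht0 a⟩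
  have h5 : (Set.range t).encard = m := by
    rw [← Set.image_univ, hmono.injective.encard_image, Set.encard_univ]
    simp
  rw [← h5]
  exact Set.encard_le_encard hsub

end Pool.Agent.U389.ZL
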