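import Pool.Agent.N661.BR.Defs

/-!
# Zeros of waves on lines of the plane: definitions
-/

set_option autoImplicit false
open MeasureTheory

namespace Pool.Agent.U389.ZL

noncomputable section

/-- the coordinate directions of the plane `ℂ`: `1` for `i = 0` and `I` for `i = 1` -/
def dir (i : Fin 2) : ℂ := if i = 0 then 1 else Complex.I

/-- partial derivatives: `pd [i₁, …, iₖ] f = ∂_{i₁} ⋯ ∂_{iₖ} f`, and `pd [] f = f`; here `∂_0 = ∂_x`
and `∂_1 = ∂_y` -/
def pd : List (Fin 2) → (ℂ → ℝ) → ℂ → ℝ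
  | [], f => f
  | i :: L, f => fun z => fderiv ℝ (pd L f) z (dir i)

/-- the polynomial `Q` in the partial derivatives of `f`, of all orders, at the point `z` -/
def diffPoly (Q : MvPolynomial (List (Fin 2)) ℝ) (f : ℂ → ℝ) (z : ℂ) : ℝ :=
  MvPolynomial.eval (fun L => pd L f z) Q

/-- the restriction of `H = Q(f, ∂f, …)` to the line `x + ℝ v` -/
def onLine (Q : MvPolynomial (List (Fin 2)) ℝ) (f : ℂ → ℝ) (x v : ℂ) (t : ℝ) : ℝ :=
  diffPoly Q f (x + t * v)

/-- the number (possibly `∞`) of the zeros of `h` in `[0, r)` -/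
def zeroCount (h : ℝ → ℝ) (r : ℝ) : ENNReal := ({t | t ∈ Set.Ico 0 r ∧ h t = 0} : Set ℝ).encard

end

end Pool.Agent.U389.ZL
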