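import Pool.Agent.U39.SZ.X
import Pool.Agent.N661.BR.Main
import Pool.Agent.U389.ZL.Defs

/-!
# Zeros of stationary waves on lines of the plane
-/

set_option autoImplicit false
open MeasureTheory Filter Topology
open scoped ContDiff ENNReal

namespace Pool.Agent.U389.ZL

open Pool.Agent.W745.RW (lap dx dy)
open Pool.Agent.N661.BR
open Pool.Agent.Y139.SW (E D Lap)
open Pool.Agent.U39.SZ (jt po nz main2)

/-- `ℝ² = ℂ` -/
noncomputable def ps : E 2 ≃ₗᵢ[ℝ] ℂ := Complex.orthonormalBasisOneI.repr.symm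

theorem ps_single (i : Fin 2) : ps (EuclideanSpace.single i 1) = dir i := by
  unfold ps dir
  rw [OrthonormalBasis.repr_symm_single]
  fin_cases i <;> simp [Complex.coe_orthonormalBasisOneI]

theorem D_ps (g : ℂ → ℝ) (i : Fin 2) (y : E 2) :
    D i (fun y => g (ps y)) y = fderiv ℝ g (ps y) (dir i) := by
  have h := (ps.toContinuousLinearEquiv).comp_right_fderiv (f := g) (x := y)
  have e : (fun y => g (ps y)) = g ∘ ps.toContinuousLinearEquiv := rfl
  show fderiv ℝ (fun y => g (ps y)) y (EuclideanSpace.single i 1) = _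
  rw [e, h]
  show fderiv ℝ g (ps y) (ps (EuclideanSpace.single i 1)) = _
  rw [ps_single]

theorem jt_ps (L : List (Fin 2)) (f : ℂ → ℝ) :
    jt L (fun y => f (ps y)) = fun y => pd L f (ps y) := by
  induction L with
  | nil => rfl
  | cons i L ih =>
    show D i (jt L (fun y => f (ps y))) = _
    rw [ih]
    funext y
    exact D_ps _ _ _

theorem Lap_ps (f : ℂ → ℝ) (y : E 2) : Lap (fun y => f (ps y)) y = lap f (ps y) := by
  unfold Lap
  rw [Fin.sum_univ_two]
  have e0 : D 0 (fun y => f (ps y)) = fun y => dx f (ps y) := by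
    funext y
    rw [D_ps]
    rfl
  have e1 : D 1 (fun y => f (ps y)) = fun y => dy f (ps y) := by
    funext y
    rw [D_ps]
    rfl
  rw [e0, e1, D_ps, D_ps]
  rfl

theorem po_ps (Q : MvPolynomial (List (Fin 2)) ℝ) (f : ℂ → ℝ) (x v : ℂ) (t : ℝ) :
    po Q (fun y => f (ps y)) (ps.symm x + t • ps.symm v) = onLine Q f x v t := by
  unfold po onLine diffPoly
  simp only [jt_ps]
  have e : ps (ps.symm x + t • ps.symm v) = x + t * v := by
    rw [map_add, map_smul, LinearIsometryEquiv.apply_symm_apply,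
      LinearIsometryEquiv.apply_symm_apply, Complex.real_smul]
  rw [e]

theorem main3 {μ : Measure MW} [IsProbabilityMeasure μ] (hs : IsStationary μ)
    (h2 : Integrable (fun f : MW => f 0 ^ 2) μ) (Q : MvPolynomial (List (Fin 2)) ℝ) (x : ℂ) {v : ℂ}
    (hv : ‖v‖ ≤ 1) {r : ℝ} (hr : 0 < r) {I : Set (ℂ → ℝ)} (mI : MeasurableSet I)
    (hI : ∀ (t : ℝ) (f : ℂ → ℝ), (fun z => f (z + t * v)) ∈ I ↔ f ∈ I) :
    Measurable (fun f : MW => zeroCount (onLine Q f x v) r) ∧
    MeasurableSet {f : MW | ∃ t : ℝ, onLine Q f x v t ≠ 0} ∧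
    ∫⁻ f in {f : MW | f.1 ∈ I ∧ ∃ t : ℝ, onLine Q f x v t ≠ 0}, zeroCount (onLine Q f x v) r ∂μ ≤
      ENNReal.ofReal (Q.totalDegree * r / Real.pi) *
        μ {f : MW | f.1 ∈ I ∧ ∃ t : ℝ, onLine Q f x v t ≠ 0} := by
  have mG : Measurable fun (f : MW) (y : E 2) => f (ps y) :=
    measurable_pi_iff.2 fun y => (measurable_pi_apply (ps y)).comp measurable_subtype_coe
  have key := main2 (P := μ) (F := fun (f : MW) (y : E 2) => f (ps y))
    (fun y => (measurable_pi_apply (ps y)).comp measurable_subtype_coe)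
    (fun f => f.2.1.comp ps.contDiff)
    (fun f y => by
      show Lap (fun y => f (ps y)) y + f (ps y) = 0
      rw [Lap_ps]
      exact f.2.2 _)
    (fun x => by
      have e : (fun (f : MW) (y : E 2) => f (ps (y + x))) =
          (fun (f : MW) (y : E 2) => f (ps y)) ∘ shift (ps x) := by
        funext f y
        show f (ps (y + x)) = f (ps y + ps x)
        rw [map_add]
      rw [e, ← Measure.map_map mG (meas_shift _), hs])
    (by simpa using h2) Q (ps.symm x) (v := ps.symm v)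
    (by rw [LinearIsometryEquiv.norm_map]; exact hv) hr
    (I := {g | (fun z : ℂ => g (ps.symm z)) ∈ I})
    ((measurable_pi_iff.2 fun z => measurable_pi_apply (ps.symm z)) mI)
    (fun t g => by
      have h1 := hI t (fun z => g (ps.symm z))
      have e : (fun z : ℂ => g (ps.symm z + t • ps.symm v)) =
          fun z : ℂ => g (ps.symm (z + t * v)) := by
        funext z
        rw [map_add, ← Complex.real_smul, map_smul]
      show (fun z : ℂ => g (ps.symm z + t • ps.symm v)) ∈ I ↔ _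
      rw [e]
      exact h1)
  simp only [po_ps] at key
  have e2 : ∀ f : MW, ((fun y : E 2 => f (ps y)) ∈ {g : E 2 → ℝ | (fun z : ℂ => g (ps.symm z)) ∈ I}) ↔
      f.1 ∈ I := by
    intro f
    show (fun z : ℂ => f (ps (ps.symm z))) ∈ I ↔ f.1 ∈ I
    simp only [LinearIsometryEquiv.apply_symm_apply]
  simp only [e2] at key
  exact key

theorem cross {ρ : Measure MW} [IsProbabilityMeasure ρ] (hs : IsStationary ρ)
    (h2 : Integrable (fun f : MW => f 0 ^ 2) ρ) {v : ℂ} (hv : ‖v‖ ≤ 1) {s : ℝ} (hs0 : 0 < s)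
    (c : ℝ) {ε : ℝ} (hε : 0 < ε) :
    ρ {f : MW | (c + ε ≤ f 0 ∧ f (s * v) ≤ c - ε) ∨ (f 0 ≤ c - ε ∧ c + ε ≤ f (s * v))} ≤
      ENNReal.ofReal (s / Real.pi) := by
  obtain ⟨Q, hQ⟩ : ∃ Q : MvPolynomial (List (Fin 2)) ℝ,
    Q = MvPolynomial.X [] - MvPolynomial.C c := ⟨_, rfl⟩
  have hdeg : Q.totalDegree ≤ 1 := by
    rw [hQ]
    refine (MvPolynomial.totalDegree_sub _ _).trans ?_
    rw [MvPolynomial.totalDegree_X, MvPolynomial.totalDegree_C]
    simp
  have hon : ∀ (f : MW) (t : ℝ), onLine Q f 0 v t = f (t * v) - c := by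
    intro f t
    unfold onLine diffPoly
    rw [hQ, map_sub, MvPolynomial.eval_X, MvPolynomial.eval_C, zero_add]
    rfl
  obtain ⟨-, -, k3⟩ := main3 hs h2 Q 0 hv hs0 (I := Set.univ) MeasurableSet.univ
    (fun t f => by simp)
  have ev : ∀ z : ℂ, Measurable fun f : MW => f z := fun z =>
    (measurable_pi_apply z).comp measurable_subtype_coe
  have mS : MeasurableSet {f : MW | (c + ε ≤ f 0 ∧ f (s * v) ≤ c - ε) ∨
      (f 0 ≤ c - ε ∧ c + ε ≤ f (s * v))} := by
    refine MeasurableSet.union (MeasurableSet.inter ?_ ?_) (MeasurableSet.inter ?_ ?_)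
    · exact measurableSet_le measurable_const (ev 0)
    · exact measurableSet_le (ev _) measurable_const
    · exact measurableSet_le (ev 0) measurable_const
    · exact measurableSet_le measurable_const (ev _)
  have hsub : {f : MW | (c + ε ≤ f 0 ∧ f (s * v) ≤ c - ε) ∨ (f 0 ≤ c - ε ∧ c + ε ≤ f (s * v))} ⊆
      {f : MW | f.1 ∈ Set.univ ∧ ∃ t : ℝ, onLine Q f 0 v t ≠ 0} := by
    intro f hf
    refine ⟨Set.mem_univ _, 0, ?_⟩
    rw [hon]
    have e0 : ((0 : ℝ) : ℂ) * v = 0 := by simp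
    rw [e0]
    rcases hf with h | h
    · have := h.1
      intro h0
      linarith
    · have := h.1
      intro h0
      linarith
  have hone : ∀ f ∈ {f : MW | (c + ε ≤ f 0 ∧ f (s * v) ≤ c - ε) ∨
      (f 0 ≤ c - ε ∧ c + ε ≤ f (s * v))}, (1 : ENNReal) ≤ zeroCount (onLine Q f 0 v) s := by
    intro f hf
    have hcont : Continuous fun t : ℝ => f (t * v) - c := by
      have hc : Continuous f.1 := f.2.1.continuous
      exact (hc.comp (by fun_prop)).sub continuous_const
    have e0 : ((0 : ℝ) : ℂ) * v = 0 := by simp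
    have hz : ∃ t ∈ Set.Ico 0 s, f (t * v) - c = 0 := by
      rcases hf with h | h
      · have h1 := intermediate_value_Icc' hs0.le hcont.continuousOn
        have h3 : (0 : ℝ) ∈ Set.Icc (f ((s : ℝ) * v) - c) (f ((0 : ℝ) * v) - c) := by
          rw [e0]
          constructor <;> linarith [h.1, h.2]
        obtain ⟨t, ht, ht0⟩ := h1 h3
        refine ⟨t, ⟨ht.1, lt_of_le_of_ne ht.2 ?_⟩, ht0⟩
        rintro rfl
        have ht0' : f (t * v) - c = 0 := ht0
        linarith [h.2]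
      · have h1 := intermediate_value_Icc hs0.le hcont.continuousOn
        have h3 : (0 : ℝ) ∈ Set.Icc (f ((0 : ℝ) * v) - c) (f ((s : ℝ) * v) - c) := by
          rw [e0]
          constructor <;> linarith [h.1, h.2]
        obtain ⟨t, ht, ht0⟩ := h1 h3
        refine ⟨t, ⟨ht.1, lt_of_le_of_ne ht.2 ?_⟩, ht0⟩
        rintro rfl
        have ht0' : f (t * v) - c = 0 := ht0
        linarith [h.2]
    obtain ⟨t, ht, ht0⟩ := hz
    unfold zeroCount
    have hne : ({t | t ∈ Set.Ico 0 s ∧ onLine Q f 0 v t = 0} : Set ℝ).Nonempty :=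
      ⟨t, ht, by rw [hon]; exact ht0⟩
    have h4 : (1 : ENat) ≤ ({t | t ∈ Set.Ico 0 s ∧ onLine Q f 0 v t = 0} : Set ℝ).encard :=
      Set.one_le_encard_iff_nonempty.2 hne
    exact_mod_cast h4
  calc ρ {f : MW | (c + ε ≤ f 0 ∧ f (s * v) ≤ c - ε) ∨ (f 0 ≤ c - ε ∧ c + ε ≤ f (s * v))}
      = ∫⁻ _ in {f : MW | (c + ε ≤ f 0 ∧ f (s * v) ≤ c - ε) ∨
          (f 0 ≤ c - ε ∧ c + ε ≤ f (s * v))}, 1 ∂ρ := by
        rw [lintegral_one, Measure.restrict_apply_univ]
    _ ≤ ∫⁻ f in {f : MW | (c + ε ≤ f 0 ∧ f (s * v) ≤ c - ε) ∨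
          (f 0 ≤ c - ε ∧ c + ε ≤ f (s * v))}, zeroCount (onLine Q f 0 v) s ∂ρ :=
        setLIntegral_mono' mS hone
    _ ≤ ∫⁻ f in {f : MW | f.1 ∈ Set.univ ∧ ∃ t : ℝ, onLine Q f 0 v t ≠ 0},
          zeroCount (onLine Q f 0 v) s ∂ρ := lintegral_mono_set hsub
    _ ≤ ENNReal.ofReal (Q.totalDegree * s / Real.pi) *
          ρ {f : MW | f.1 ∈ Set.univ ∧ ∃ t : ℝ, onLine Q f 0 v t ≠ 0} := k3
    _ ≤ ENNReal.ofReal (Q.totalDegree * s / Real.pi) * 1 := by
        gcongr
        exact prob_le_one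
    _ ≤ ENNReal.ofReal (s / Real.pi) := by
        rw [mul_one]
        refine ENNReal.ofReal_le_ofReal ?_
        have hp := Real.pi_pos
        have hd : (Q.totalDegree : ℝ) ≤ 1 := by exact_mod_cast hdeg
        gcongr
        nlinarith

end Pool.Agent.U389.ZL
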