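import Pool.Agent.U389.ZL.A
import Pool.Agent.U389.ZL.B
import Pool.Agent.U26.SG.Pt

/-!
# Crossings: from the limit laws to the eigenfunctions
-/

set_option autoImplicit false
open MeasureTheory Filter Topology Complex
open scoped ContDiff ENNReal

namespace Pool.Agent.U389.ZL

open Pool.Agent.W745.RW (lap dx dy)
open Pool.Agent.N661.BR
open Pool.Agent.U26.SB (lwave lwave_zero lwave_meas lwave_stat lwave_apply lin_meas ConvergesAlong
  resc_zero)
open Pool.Agent.U26.SG (S_PL ex_cutoff exh_planar)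

theorem evm (z : ℂ) : Measurable fun f : MW => f z :=
  (measurable_pi_apply z).comp measurable_subtype_coe

theorem lwave_i2 {μ : Measure MW} (hs : IsStationary μ)
    (h2 : Integrable (fun f : MW => f 0 ^ 2) μ) {k : ℕ} (w : Fin k → ℂ) (t : Fin k → ℝ) :
    Integrable (fun g : MW => g 0 ^ 2) (μ.map (lwave w t)) := by
  rw [integrable_map_measure ((evm 0).pow_const 2).aestronglyMeasurable
    (lwave_meas w t).aemeasurable]
  have h1 : ∀ j, MemLp (fun f : MW => t j * f (w j)) 2 μ := fun j =>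
    ((memLp_two_iff_integrable_sq (evm _).aestronglyMeasurable).2 (sq_int hs h2 (w j))).const_mul
      (t j)
  have h3 : MemLp (fun f : MW => ∑ j, t j * f (w j)) 2 μ := memLp_finset_sum _ fun j _ => h1 j
  refine h3.integrable_sq.congr (Eventually.of_forall fun f => ?_)
  show (∑ j, t j * f (w j)) ^ 2 = (lwave w t f 0) ^ 2
  rw [lwave_zero]
  rfl

/-- the set of the pairs of values at different sides of the level `c`, at distance at least `ε` -/
def CS (c ε : ℝ) : Set ℂ :=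
  {y : ℂ | (c + ε ≤ y.re ∧ y.im ≤ c - ε) ∨ (y.re ≤ c - ε ∧ c + ε ≤ y.im)}

theorem CS_closed (c ε : ℝ) : IsClosed (CS c ε) := by
  refine IsClosed.union (IsClosed.inter ?_ ?_) (IsClosed.inter ?_ ?_)
  · exact isClosed_le continuous_const continuous_re
  · exact isClosed_le continuous_im continuous_const
  · exact isClosed_le continuous_re continuous_const
  · exact isClosed_le continuous_const continuous_im

theorem cross_lin {μ : Measure MW} [IsProbabilityMeasure μ] (hs : IsStationary μ)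
    (h2 : Integrable (fun f : MW => f 0 ^ 2) μ) {k : ℕ} (w : Fin k → ℂ) (t : Fin k → ℝ) {v : ℂ}
    (hv : ‖v‖ ≤ 1) {s : ℝ} (hs0 : 0 < s) (c : ℝ) {ε : ℝ} (hε : 0 < ε) :
    μ.real {f : MW | ((lin w t f : ℝ) : ℂ) + (lin (fun j => w j + s * v) t f : ℝ) * I ∈ CS c ε} ≤
      s / Real.pi := by
  have hp : IsProbabilityMeasure (μ.map (lwave w t)) :=
    Measure.isProbabilityMeasure_map (lwave_meas w t).aemeasurable
  have h := cross (lwave_stat w t hs) (lwave_i2 hs h2 w t) hv hs0 c hε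
  have mS : MeasurableSet {f : MW | (c + ε ≤ f 0 ∧ f (s * v) ≤ c - ε) ∨
      (f 0 ≤ c - ε ∧ c + ε ≤ f (s * v))} := by
    refine MeasurableSet.union (MeasurableSet.inter ?_ ?_) (MeasurableSet.inter ?_ ?_)
    · exact measurableSet_le measurable_const (evm 0)
    · exact measurableSet_le (evm _) measurable_const
    · exact measurableSet_le (evm 0) measurable_const
    · exact measurableSet_le measurable_const (evm _)
  rw [Measure.map_apply (lwave_meas w t) mS] at h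
  have e : lwave w t ⁻¹' {f : MW | (c + ε ≤ f 0 ∧ f (s * v) ≤ c - ε) ∨
      (f 0 ≤ c - ε ∧ c + ε ≤ f (s * v))} =
      {f : MW | ((lin w t f : ℝ) : ℂ) + (lin (fun j => w j + s * v) t f : ℝ) * I ∈ CS c ε} := by
    ext f
    have e1 : lwave w t f 0 = lin w t f := lwave_zero w t f
    have e2 : lwave w t f (s * v) = lin (fun j => w j + s * v) t f := by
      rw [lwave_apply]
      unfold lin
      exact Finset.sum_congr rfl fun j _ => by rw [add_comm]
    show ((c + ε ≤ lwave w t f 0 ∧ lwave w t f (s * v) ≤ c - ε) ∨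
      (lwave w t f 0 ≤ c - ε ∧ c + ε ≤ lwave w t f (s * v))) ↔ _
    rw [e1, e2]
    simp [CS]
  rw [e] at h
  rw [measureReal_def]
  exact ENNReal.toReal_le_of_le_ofReal (by positivity) h

theorem areas2 {σ : ℕ → ℕ} {χ : ℝ → ℝ} {Ω : Set ℂ} (ho : IsOpen Ω) (hb : Bornology.IsBounded Ω)
    (hne : Ω.Nonempty) (hχ : IsCutoff χ) {lam : ℕ → ℝ} (hl : ∀ n, 0 < lam n) {u : ℕ → ℂ → ℝ}
    (hu : ∀ n, ContDiffOn ℝ ∞ (u n) Ω) {μ : Measure MW} [IsProbabilityMeasure μ]
    (h : ConvergesAlong σ χ Ω lam u μ) {k : ℕ} (w w' : Fin k → ℂ) (t : Fin k → ℝ) {F : Set ℂ}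
    (hF : IsClosed F) {ε : ℝ} (hε : 0 < ε) :
    ∀ᶠ n in atTop,
      volume.real {z | z ∈ Ω ∧ ((∑ j, t j * resc χ Ω (lam (σ n)) (u (σ n)) z (w j) : ℝ) : ℂ) +
        (∑ j, t j * resc χ Ω (lam (σ n)) (u (σ n)) z (w' j) : ℝ) * I ∈ F} ≤
      (μ.real {f : MW | ((lin w t f : ℝ) : ℂ) + (lin w' t f : ℝ) * I ∈ F} + ε) *
        volume.real Ω := by
  have hfin : volume Ω ≠ ⊤ := hb.measure_lt_top.ne
  have h0 : volume Ω ≠ 0 := (ho.measure_pos volume hne).ne'
  have hV : 0 < volume.real Ω := ENNReal.toReal_pos h0 hfin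
  obtain ⟨Q, hQ⟩ : ∃ Q : Measure ℂ, Q = (volume Ω)⁻¹ • volume.restrict Ω := ⟨_, rfl⟩
  have hQp : IsProbabilityMeasure Q := by
    constructor
    rw [hQ, Measure.smul_apply, Measure.restrict_apply_univ, smul_eq_mul,
      ENNReal.inv_mul_cancel h0 hfin]
  obtain ⟨X, hX⟩ : ∃ X : ℕ → ℂ → ℂ, X = fun n z =>
      ((∑ j, t j * resc χ Ω (lam (σ n)) (u (σ n)) z (w j) : ℝ) : ℂ) +
        (∑ j, t j * resc χ Ω (lam (σ n)) (u (σ n)) z (w' j) : ℝ) * I := ⟨_, rfl⟩
  have hrm : ∀ (n : ℕ) (y : ℂ), AEMeasurable (fun z => resc χ Ω (lam (σ n)) (u (σ n)) z y) Q := by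
    intro n y
    have h1 : AEMeasurable (fun z => resc χ Ω (lam (σ n)) (u (σ n)) z y) (volume.restrict Ω) :=
      (Pool.Agent.N163.BR.resc_meas ho hb hχ (hl _) (hu _).continuousOn _).aemeasurable
    rw [hQ]
    exact h1.smul_measure _
  have hsm : ∀ (n : ℕ) (y : Fin k → ℂ),
      AEMeasurable (fun z => ∑ j, t j * resc χ Ω (lam (σ n)) (u (σ n)) z (y j)) Q := fun n y =>
    Finset.aemeasurable_fun_sum _ fun j _ => (hrm n (y j)).const_mul (t j)
  have hXm : ∀ n, AEMeasurable (X n) Q := by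
    intro n
    rw [hX]
    exact (Complex.measurable_ofReal.comp_aemeasurable (hsm n w)).add
      ((Complex.measurable_ofReal.comp_aemeasurable (hsm n w')).mul_const I)
  have hre : ∀ n z, (X n z).re = ∑ j, t j * resc χ Ω (lam (σ n)) (u (σ n)) z (w j) := by
    intro n z
    rw [hX]
    simp only [add_re, ofReal_re, mul_re, I_re, I_im, ofReal_im]
    ring
  have him : ∀ n z, (X n z).im = ∑ j, t j * resc χ Ω (lam (σ n)) (u (σ n)) z (w' j) := by
    intro n z
    rw [hX]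
    simp only [add_im, ofReal_re, mul_im, I_re, I_im, ofReal_im]
    ring
  obtain ⟨G, hG⟩ : ∃ G : MW → ℂ, G = fun f => ((lin w t f : ℝ) : ℂ) + (lin w' t f : ℝ) * I :=
    ⟨_, rfl⟩
  have hGm : Measurable G := by
    rw [hG]
    exact (Complex.measurable_ofReal.comp (lin_meas w t)).add
      ((Complex.measurable_ofReal.comp (lin_meas w' t)).mul_const I)
  have hGre : ∀ f, (G f).re = lin w t f := by
    intro f
    rw [hG]
    simp only [add_re, ofReal_re, mul_re, I_re, I_im, ofReal_im]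
    ring
  have hGim : ∀ f, (G f).im = lin w' t f := by
    intro f
    rw [hG]
    simp only [add_im, ofReal_re, mul_im, I_re, I_im, ofReal_im]
    ring
  have hνp : IsProbabilityMeasure (μ.map G) := Measure.isProbabilityMeasure_map hGm.aemeasurable
  have key := closed_le (Q := Q) (X := X) (ν := μ.map G) hXm (fun τ => by
    obtain ⟨W, hW⟩ : ∃ W : Fin (k + k) → ℂ, W = Fin.append w w' := ⟨_, rfl⟩
    obtain ⟨T, hT⟩ : ∃ T : Fin (k + k) → ℝ,
      T = Fin.append (fun j => τ.re * t j) (fun j => τ.im * t j) := ⟨_, rfl⟩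
    have h1 := h (k + k) W T
    have e1 : ∀ n z, (∑ j, T j * resc χ Ω (lam (σ n)) (u (σ n)) z (W j)) =
        τ.re * (X n z).re + τ.im * (X n z).im := by
      intro n z
      rw [Fin.sum_univ_add, hre, him, hW, hT]
      simp only [Fin.append_left, Fin.append_right, mul_assoc, Finset.mul_sum]
    have e2 : ∀ f : MW, lin W T f = τ.re * (G f).re + τ.im * (G f).im := by
      intro f
      rw [hGre, hGim]
      unfold lin
      rw [Fin.sum_univ_add, hW, hT]
      simp only [Fin.append_left, Fin.append_right, mul_assoc, Finset.mul_sum]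
    simp only [e1, e2] at h1
    rw [integral_map hGm.aemeasurable (by fun_prop)]
    have e3 : ∀ n, ∫ z, Complex.exp (I * ((τ.re * (X n z).re + τ.im * (X n z).im : ℝ) : ℂ)) ∂Q =
        (1 / volume.real Ω : ℝ) * ∫ z in Ω,
          Complex.exp (I * ((τ.re * (X n z).re + τ.im * (X n z).im : ℝ) : ℂ)) := by
      intro n
      rw [hQ, integral_smul_measure, ENNReal.toReal_inv, Complex.real_smul, one_div]
      rfl
    simp only [e3]
    exact h1) hF hε
  filter_upwards [key] with n hn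
  have e4 : (μ.map G).real F = μ.real {f : MW | ((lin w t f : ℝ) : ℂ) + (lin w' t f : ℝ) * I ∈ F} := by
    rw [map_measureReal_apply hGm hF.measurableSet, hG]
    rfl
  have e5 : Q.real {z | X n z ∈ F} = (volume.real Ω)⁻¹ *
      volume.real {z | z ∈ Ω ∧ ((∑ j, t j * resc χ Ω (lam (σ n)) (u (σ n)) z (w j) : ℝ) : ℂ) +
        (∑ j, t j * resc χ Ω (lam (σ n)) (u (σ n)) z (w' j) : ℝ) * I ∈ F} := by
    rw [measureReal_def, hQ, Measure.smul_apply, smul_eq_mul, ENNReal.toReal_mul,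
      ENNReal.toReal_inv, Measure.restrict_apply' ho.measurableSet, Set.inter_comm, hX]
    rfl
  rw [e4, e5] at hn
  have h5 := mul_le_mul_of_nonneg_left hn hV.le
  rw [← mul_assoc, mul_inv_cancel₀ hV.ne', one_mul, mul_comm] at h5
  exact h5

/-- the limit points are stationary with a finite second moment -/
theorem lim_data {Ω : Set ℂ} (hΩ : IsOpen Ω) (hb : Bornology.IsBounded Ω) (hne : Ω.Nonempty)
    {lam : ℕ → ℝ} (hpos : ∀ n, 0 < lam n) (hlam : Tendsto lam atTop atTop)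
    {u : ℕ → ℂ → ℝ} (hu : ∀ n, ContDiffOn ℝ ∞ (u n) Ω)
    (heq : ∀ n, ∀ z ∈ Ω, lap (u n) z + lam n * u n z = 0) (hqe : IsQuantumErgodic Ω lam u)
    {χ : ℝ → ℝ} (hχ : IsCutoff χ)
    {μ : Measure MW} [IsProbabilityMeasure μ] (hμ : IsLocalLimit χ Ω lam u μ) :
    IsStationary μ ∧ Integrable (fun f : MW => f 0 ^ 2) μ := by
  obtain ⟨h1, h2, h3⟩ := limit_all hΩ hb hne hpos hlam hu heq hqe hχ inferInstance hμ
  refine ⟨(exh_planar hΩ hb hne hpos hlam hu heq hqe hχ hμ).st,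
    ((evm 0).pow_const 2).aestronglyMeasurable, ?_⟩
  rw [hasFiniteIntegral_iff_ofReal (Eventually.of_forall fun f => by positivity)]
  exact lt_of_le_of_lt h2 ENNReal.one_lt_top

theorem planar2 (hPL : S_PL) {Ω : Set ℂ} (hΩ : IsOpen Ω) (hb : Bornology.IsBounded Ω)
    (hne : Ω.Nonempty) {lam : ℕ → ℝ} (hpos : ∀ n, 0 < lam n) (hlam : Tendsto lam atTop atTop)
    {u : ℕ → ℂ → ℝ} (hu : ∀ n, ContDiffOn ℝ ∞ (u n) Ω)
    (heq : ∀ n, ∀ z ∈ Ω, lap (u n) z + lam n * u n z = 0) (hqe : IsQuantumErgodic Ω lam u)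
    {χ : ℝ → ℝ} (hχ : IsCutoff χ) {k : ℕ} (w : Fin k → ℂ) (t : Fin k → ℝ) {v : ℂ} (hv : ‖v‖ ≤ 1)
    {s : ℝ} (hs : 0 < s) (c : ℝ) {ε : ℝ} (hε : 0 < ε) :
    ∀ᶠ n in atTop,
      volume.real {z | z ∈ Ω ∧ ((∑ j, t j * resc χ Ω (lam n) (u n) z (w j) : ℝ) : ℂ) +
        (∑ j, t j * resc χ Ω (lam n) (u n) z (w j + s * v) : ℝ) * I ∈ CS c ε} ≤
      (s / Real.pi + ε) * volume.real Ω := by
  by_contra hcon
  rw [Filter.not_eventually] at hcon
  obtain ⟨τ, hτ, hτP⟩ := Filter.extraction_of_frequently_atTop hcon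
  have hlam' : Tendsto (lam ∘ τ) atTop atTop := hlam.comp hτ.tendsto_atTop
  have hqe' : IsQuantumErgodic Ω (lam ∘ τ) (u ∘ τ) := fun φ hφ k =>
    (hqe φ hφ k).comp hτ.tendsto_atTop
  obtain ⟨σ, μ, hσ, hμp, hμ⟩ := hPL Ω hΩ hb hne (lam ∘ τ) (fun n => hpos _) hlam' (u ∘ τ)
    (fun n => hu _) (fun n => heq _) hqe' χ hχ
  obtain ⟨hst, h2⟩ := lim_data (lam := lam ∘ τ) (u := u ∘ τ) hΩ hb hne (fun n => hpos _) hlam'
    (fun n => hu _) (fun n => heq _) hqe' hχ ⟨σ, hσ, hμ⟩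
  have h1 := areas2 (lam := lam ∘ τ) (u := u ∘ τ) hΩ hb hne hχ (fun n => hpos _)
    (fun n => hu _) hμ w (fun j => w j + s * v) t (CS_closed c ε) hε
  obtain ⟨n, hn⟩ := h1.exists
  refine hτP (σ n) (hn.trans ?_)
  gcongr
  exact cross_lin hst h2 w t hv hs c hε

end Pool.Agent.U389.ZL
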