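import Pool.Agent.U389.ZL.C

/-!
# Crossings of the eigenfunctions themselves
-/

set_option autoImplicit false
open MeasureTheory Filter Topology Complex
open scoped ContDiff ENNReal

namespace Pool.Agent.U389.ZL

open Pool.Agent.W745.RW (lap dx dy)
open Pool.Agent.N661.BR
open Pool.Agent.U26.SB (resc_zero)
open Pool.Agent.U26.SG (S_PL ex_cutoff)

theorem layer {Ω : Set ℂ} (ho : IsOpen Ω) (hb : Bornology.IsBounded Ω) (hne : Ω.Nonempty) {ε : ℝ}
    (hε : 0 < ε) :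
    ∃ h : ℝ, 0 < h ∧ volume.real {z | z ∈ Ω ∧ Metric.infDist z (frontier Ω) < h} ≤ ε := by
  have hfr : (frontier Ω).Nonempty := by
    by_contra hcon
    rw [Set.not_nonempty_iff_eq_empty] at hcon
    rcases isClopen_iff.1 (isClopen_iff_frontier_eq_empty.2 hcon) with h | h
    · exact hne.ne_empty h
    · rw [h] at hb
      exact NormedSpace.unbounded_univ ℝ ℂ hb
  obtain ⟨S, hS⟩ : ∃ S : ℕ → Set ℂ,
    S = fun N : ℕ => {z | z ∈ Ω ∧ Metric.infDist z (frontier Ω) < 1 / ((N : ℝ) + 1)} := ⟨_, rfl⟩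
  have hanti : Antitone S := by
    intro a b hab z hz
    rw [hS] at hz ⊢
    refine ⟨hz.1, lt_of_lt_of_le hz.2 ?_⟩
    have hab' : (a : ℝ) ≤ b := by exact_mod_cast hab
    gcongr
  have hm : ∀ N, MeasurableSet (S N) := by
    intro N
    rw [hS]
    exact ho.measurableSet.inter
      (measurableSet_lt (Metric.continuous_infDist_pt _).measurable measurable_const)
  have hI : ⋂ N, S N = ∅ := by
    rw [Set.eq_empty_iff_forall_notMem]
    intro z hz
    rw [Set.mem_iInter] at hz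
    rw [hS] at hz
    have h0 : z ∈ Ω := (hz 0).1
    have h1 : z ∉ frontier Ω := by
      rw [ho.frontier_eq]
      exact fun h => h.2 h0
    have h2 : 0 < Metric.infDist z (frontier Ω) :=
      (isClosed_frontier.notMem_iff_infDist_pos hfr).1 h1
    obtain ⟨N, hN⟩ := exists_nat_one_div_lt h2
    exact absurd (hz N).2 (not_lt.2 hN.le)
  have hlim := tendsto_measure_iInter_atTop (μ := volume) (s := S)
    (fun N => (hm N).nullMeasurableSet) hanti
    ⟨0, (lt_of_le_of_lt (measure_mono fun z hz => by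
      rw [hS] at hz
      exact hz.1) hb.measure_lt_top).ne⟩
  rw [hI, measure_empty] at hlim
  have h3 : ∀ᶠ N in atTop, (volume ∘ S) N < ENNReal.ofReal ε :=
    hlim.eventually_lt_const (ENNReal.ofReal_pos.2 hε)
  obtain ⟨N, hN⟩ := h3.exists
  refine ⟨1 / ((N : ℝ) + 1), by positivity, ?_⟩
  have hN' : volume {z | z ∈ Ω ∧ Metric.infDist z (frontier Ω) < 1 / ((N : ℝ) + 1)} <
      ENNReal.ofReal ε := by
    have h4 : volume (S N) < ENNReal.ofReal ε := hN
    rwa [hS] at h4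
  rw [measureReal_def]
  exact ENNReal.toReal_le_of_le_ofReal hε.le hN'.le

theorem planar_pt2 (hPL : S_PL) {Ω : Set ℂ} (hΩ : IsOpen Ω) (hb : Bornology.IsBounded Ω)
    (hne : Ω.Nonempty) {lam : ℕ → ℝ} (hpos : ∀ n, 0 < lam n) (hlam : Tendsto lam atTop atTop)
    {u : ℕ → ℂ → ℝ} (hu : ∀ n, ContDiffOn ℝ ∞ (u n) Ω)
    (heq : ∀ n, ∀ z ∈ Ω, lap (u n) z + lam n * u n z = 0) (hqe : IsQuantumErgodic Ω lam u)
    {v : ℂ} (hv : ‖v‖ ≤ 1) {s : ℝ} (hs : 0 < s) (c : ℝ) {ε : ℝ} (hε : 0 < ε) :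
    ∀ᶠ n in atTop,
      volume.real {z | z ∈ Ω ∧ ((c + ε ≤ u n z ∧ u n (z + s * v / (√(lam n) : ℝ)) ≤ c - ε) ∨
        (u n z ≤ c - ε ∧ c + ε ≤ u n (z + s * v / (√(lam n) : ℝ))))} ≤
      (s / Real.pi + ε) * volume.real Ω := by
  obtain ⟨χ, hχ⟩ := ex_cutoff
  obtain ⟨δ, hδ, hχ1⟩ := hχ.one
  have hfin : volume Ω ≠ ⊤ := hb.measure_lt_top.ne
  have h0 : volume Ω ≠ 0 := (hΩ.measure_pos volume hne).ne'
  have hV : 0 < volume.real Ω := ENNReal.toReal_pos h0 hfin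
  obtain ⟨h, hh, hlay⟩ := layer hΩ hb hne (ε := ε / 2 * volume.real Ω) (by positivity)
  have hsq : Tendsto (fun n => √(lam n)) atTop atTop := Real.tendsto_sqrt_atTop.comp hlam
  have hlarge : ∀ᶠ n in atTop, s / (δ * h) ≤ √(lam n) := hsq.eventually_ge_atTop _
  filter_upwards [planar2 hPL hΩ hb hne hpos hlam hu heq hqe hχ (k := 1) (fun _ => 0)
    (fun _ => 1) hv hs c (half_pos hε), hlarge] with n hn hl
  have hsub : {z | z ∈ Ω ∧ ((c + ε ≤ u n z ∧ u n (z + s * v / (√(lam n) : ℝ)) ≤ c - ε) ∨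
        (u n z ≤ c - ε ∧ c + ε ≤ u n (z + s * v / (√(lam n) : ℝ))))} ⊆
      {z | z ∈ Ω ∧ ((∑ j : Fin 1, (fun _ => (1 : ℝ)) j *
          resc χ Ω (lam n) (u n) z ((fun _ => (0 : ℂ)) j) : ℝ) : ℂ) +
        (∑ j : Fin 1, (fun _ => (1 : ℝ)) j *
          resc χ Ω (lam n) (u n) z ((fun _ => (0 : ℂ)) j + s * v) : ℝ) * I ∈ CS c (ε / 2)} ∪
      {z | z ∈ Ω ∧ Metric.infDist z (frontier Ω) < h} := by
    rintro z ⟨hz, hz2⟩
    by_cases hd : Metric.infDist z (frontier Ω) < h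
    · exact Or.inr ⟨hz, hd⟩
    push Not at hd
    refine Or.inl ⟨hz, ?_⟩
    simp only [Finset.univ_unique, Finset.sum_singleton, one_mul, zero_add, resc_zero hχ]
    have hl0 : 0 < √(lam n) := Real.sqrt_pos.2 (hpos n)
    have h1 : resc χ Ω (lam n) (u n) z (s * v) = u n (z + s * v / (√(lam n) : ℝ)) := by
      unfold resc
      rw [hχ1 _ (div_nonneg (norm_nonneg _) (mul_nonneg hl0.le Metric.infDist_nonneg)) ?_, mul_one]
      have hD : 0 < √(lam n) * Metric.infDist z (frontier Ω) :=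
        mul_pos hl0 (lt_of_lt_of_le hh hd)
      rw [div_le_iff₀ hD]
      have h2 : ‖(s : ℂ) * v‖ ≤ s := by
        rw [norm_mul, Complex.norm_real, Real.norm_of_nonneg hs.le]
        nlinarith
      have h3 : s ≤ √(lam n) * (δ * h) := by
        rwa [div_le_iff₀ (by positivity)] at hl
      calc ‖(s : ℂ) * v‖ ≤ s := h2
        _ ≤ √(lam n) * (δ * h) := h3
        _ ≤ √(lam n) * (δ * Metric.infDist z (frontier Ω)) := by gcongr
        _ = δ * (√(lam n) * Metric.infDist z (frontier Ω)) := by ring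
    rw [h1]
    have e : ∀ a b : ℝ, ((c + ε ≤ a ∧ b ≤ c - ε) ∨ (a ≤ c - ε ∧ c + ε ≤ b)) →
        ((a : ℂ) + (b : ℂ) * I) ∈ CS c (ε / 2) := by
      intro a b hab
      have e1 : ((a : ℂ) + (b : ℂ) * I).re = a := by simp
      have e2 : ((a : ℂ) + (b : ℂ) * I).im = b := by simp
      show (c + ε / 2 ≤ ((a : ℂ) + (b : ℂ) * I).re ∧ ((a : ℂ) + (b : ℂ) * I).im ≤ c - ε / 2) ∨
        (((a : ℂ) + (b : ℂ) * I).re ≤ c - ε / 2 ∧ c + ε / 2 ≤ ((a : ℂ) + (b : ℂ) * I).im)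
      rw [e1, e2]
      rcases hab with h | h
      · exact Or.inl ⟨by linarith [h.1], by linarith [h.2]⟩
      · exact Or.inr ⟨by linarith [h.1], by linarith [h.2]⟩
    exact e _ _ hz2
  have hfin2 : ∀ A : Set ℂ, A ⊆ Ω → volume A ≠ ⊤ := fun A hA =>
    (lt_of_le_of_lt (measure_mono hA) hb.measure_lt_top).ne
  refine (measureReal_mono hsub ?_).trans ((measureReal_union_le _ _).trans ?_)
  · exact hfin2 _ (Set.union_subset (fun z hz => hz.1) fun z hz => hz.1)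
  · calc _ ≤ (s / Real.pi + ε / 2) * volume.real Ω + ε / 2 * volume.real Ω := add_le_add hn hlay
      _ = (s / Real.pi + ε) * volume.real Ω := by ring

end Pool.Agent.U389.ZL
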