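import Pool.Agent.U389.ZL.A2
import Pool.Agent.U389.ZL.D

/-!
# Alternations: from the limit laws to the eigenfunctions
-/

set_option autoImplicit false
open MeasureTheory Filter Topology Complex
open scoped ContDiff ENNReal

namespace Pool.Agent.U389.ZL

open Pool.Agent.W745.RW (lap dx dy)
open Pool.Agent.N661.BR
open Pool.Agent.U26.SB (lwave lwave_zero lwave_meas lwave_stat lwave_apply lin_meas ConvergesAlong
  resc_zero)
open Pool.Agent.U26.SG (S_PL ex_cutoff exh_planar)

open Classical in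
theorem sum_alt_le {c ε : ℝ} (hε : 0 < ε) {K : ℕ} {g : ℝ → ℝ} (hg : Continuous g)
    {s : Fin (K + 1) → ℝ} (hs : StrictMono s) :
    (∑ m ∈ Finset.Icc 1 K, if Alt c ε (fun i => g (s i)) m then (1 : ENNReal) else 0) ≤
      ((({t | t ∈ Set.Ico (s 0) (s (Fin.last K)) ∧ g t = c} : Set ℝ).encard : ENat) : ENNReal) := by
  obtain ⟨E, hE⟩ : ∃ E : ENat,
    E = ({t | t ∈ Set.Ico (s 0) (s (Fin.last K)) ∧ g t = c} : Set ℝ).encard := ⟨_, rfl⟩
  have h1 : ∀ m : ℕ, Alt c ε (fun i => g (s i)) m → (m : ENat) ≤ E := fun m hm => by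
    rw [hE]
    exact Alt_zeros hε hg hs hm
  rw [← hE, Finset.sum_boole]
  induction E using ENat.recTopCoe with
  | top => simp
  | coe n =>
    have h2 : (Finset.Icc 1 K).filter (fun m => Alt c ε (fun i => g (s i)) m) ⊆
        Finset.Icc 1 n := by
      intro m hm
      rw [Finset.mem_filter, Finset.mem_Icc] at hm
      rw [Finset.mem_Icc]
      exact ⟨hm.1.1, by exact_mod_cast h1 m hm.2⟩
    have h3 := Finset.card_le_card h2
    rw [Nat.card_Icc, Nat.add_sub_cancel] at h3
    rw [ENat.toENNReal_coe]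
    exact_mod_cast h3

theorem alt_sum {ρ : Measure MW} [IsProbabilityMeasure ρ] (hs : IsStationary ρ)
    (h2 : Integrable (fun f : MW => f 0 ^ 2) ρ) {v : ℂ} (hv : ‖v‖ ≤ 1) {K : ℕ}
    {s : Fin (K + 1) → ℝ} (hsm : StrictMono s) (c : ℝ) {ε : ℝ} (hε : 0 < ε) :
    ∑ m ∈ Finset.Icc 1 K, ρ {f : MW | Alt c ε (fun i => f (s i * v)) m} ≤
      ENNReal.ofReal ((s (Fin.last K) - s 0) / Real.pi) := by
  classical
  rcases Nat.eq_zero_or_pos K with rfl | hK
  · simp
  have hr : 0 < s (Fin.last K) - s 0 := by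
    have h1 : (0 : Fin (K + 1)) < Fin.last K := by
      rw [Fin.lt_def]
      simpa using hK
    have := hsm h1
    linarith
  obtain ⟨Q, hQ⟩ : ∃ Q : MvPolynomial (List (Fin 2)) ℝ,
    Q = MvPolynomial.X [] - MvPolynomial.C c := ⟨_, rfl⟩
  have hdeg : Q.totalDegree ≤ 1 := by
    rw [hQ]
    refine (MvPolynomial.totalDegree_sub _ _).trans ?_
    rw [MvPolynomial.totalDegree_X, MvPolynomial.totalDegree_C]
    simp
  have hon : ∀ (f : MW) (t : ℝ), onLine Q f (s 0 * v) v t = f (s 0 * v + t * v) - c := by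
    intro f t
    unfold onLine diffPoly
    rw [hQ, map_sub, MvPolynomial.eval_X, MvPolynomial.eval_C]
    rfl
  obtain ⟨k1, k2, k3⟩ := main3 hs h2 Q (s 0 * v) hv hr (I := Set.univ) MeasurableSet.univ
    (fun t f => by simp)
  have mA : ∀ m, MeasurableSet {f : MW | Alt c ε (fun i => f (s i * v)) m} := by
    intro m
    have h4 : IsClosed {y : Fin (K + 1) → ℝ | Alt c ε y m} :=
      Alt_closed (T := Fin (K + 1) → ℝ) c ε (φ := fun y => y) (fun i => continuous_apply i) m
    have h5 : Measurable fun (f : MW) (i : Fin (K + 1)) => f (s i * v) :=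
      measurable_pi_iff.2 fun i => evm _
    exact h5 h4.measurableSet
  obtain ⟨S, hS⟩ : ∃ S : Set MW,
    S = {f : MW | f.1 ∈ Set.univ ∧ ∃ t : ℝ, onLine Q f (s 0 * v) v t ≠ 0} := ⟨_, rfl⟩
  have hSm : MeasurableSet S := by
    rw [hS]
    simpa using k2
  have hpt : ∀ f : MW, ∑ m ∈ Finset.Icc 1 K,
      ({f : MW | Alt c ε (fun i => f (s i * v)) m}).indicator (fun _ => (1 : ENNReal)) f ≤
      S.indicator (fun f : MW => zeroCount (onLine Q f (s 0 * v) v) (s (Fin.last K) - s 0)) f := by
    intro f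
    have hcont : Continuous fun t : ℝ => f (s 0 * v + t * v) := by
      have hc : Continuous f.1 := f.2.1.continuous
      exact hc.comp (by fun_prop)
    have hs' : StrictMono fun i => s i - s 0 := fun a b hab => by
      have := hsm hab
      show s a - s 0 < s b - s 0
      linarith
    have e1 : (fun i => f (s i * v)) = fun i => f (s 0 * v + ((s i - s 0 : ℝ) : ℂ) * v) := by
      funext i
      have e0 : (s i : ℂ) * v = s 0 * v + ((s i - s 0 : ℝ) : ℂ) * v := by
        push_cast
        ring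
      exact congrArg f.1 e0
    by_cases hf : f ∈ S
    · rw [Set.indicator_of_mem hf]
      have h6 := sum_alt_le (c := c) hε hcont hs'
      have e2 : ({t | t ∈ Set.Ico (s 0 - s 0) (s (Fin.last K) - s 0) ∧
          f (s 0 * v + t * v) = c} : Set ℝ) =
          {t | t ∈ Set.Ico 0 (s (Fin.last K) - s 0) ∧ onLine Q f (s 0 * v) v t = 0} := by
        ext t
        rw [sub_self]
        simp only [Set.mem_ofPred_eq, hon, sub_eq_zero]
      rw [e2] at h6
      refine le_trans (le_of_eq ?_) h6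
      refine Finset.sum_congr rfl fun m _ => ?_
      rw [Set.indicator_apply]
      simp only [Set.mem_ofPred_eq, e1]
    · rw [Set.indicator_of_notMem hf]
      refine le_of_eq (Finset.sum_eq_zero fun m hm => ?_)
      refine Set.indicator_of_notMem (fun hA => hf ?_) _
      obtain ⟨i, -, hi⟩ := hA
      have hm1 : 0 < m := by
        have := (Finset.mem_Icc.1 hm).1
        omega
      rw [hS]
      refine ⟨Set.mem_univ _, s (i (Fin.castSucc ⟨0, hm1⟩)) - s 0, ?_⟩
      rw [hon]
      have e3 := congrFun e1 (i (Fin.castSucc ⟨0, hm1⟩))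
      have e3' : f (s (i (Fin.castSucc ⟨0, hm1⟩)) * v) =
        f (s 0 * v + ((s (i (Fin.castSucc ⟨0, hm1⟩)) - s 0 : ℝ) : ℂ) * v) := e3
      rw [← e3']
      rcases hi ⟨0, hm1⟩ with h7 | h7
      · have := h7.1
        intro h0
        have h8 : c + ε ≤ f (s (i (Fin.castSucc ⟨0, hm1⟩)) * v) := h7.1
        linarith
      · intro h0
        have h8 : f (s (i (Fin.castSucc ⟨0, hm1⟩)) * v) ≤ c - ε := h7.1
        linarith
  calc ∑ m ∈ Finset.Icc 1 K, ρ {f : MW | Alt c ε (fun i => f (s i * v)) m}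
      = ∑ m ∈ Finset.Icc 1 K, ∫⁻ f, ({f : MW | Alt c ε (fun i => f (s i * v)) m}).indicator
          (fun _ => (1 : ENNReal)) f ∂ρ := by
        refine Finset.sum_congr rfl fun m _ => ?_
        rw [lintegral_indicator (mA m), setLIntegral_one]
    _ = ∫⁻ f, ∑ m ∈ Finset.Icc 1 K, ({f : MW | Alt c ε (fun i => f (s i * v)) m}).indicator
          (fun _ => (1 : ENNReal)) f ∂ρ := by
        rw [lintegral_finsetSum _ fun m _ => measurable_const.indicator (mA m)]
    _ ≤ ∫⁻ f, S.indicator
          (fun f : MW => zeroCount (onLine Q f (s 0 * v) v) (s (Fin.last K) - s 0)) f ∂ρ :=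
        lintegral_mono hpt
    _ = ∫⁻ f in S, zeroCount (onLine Q f (s 0 * v) v) (s (Fin.last K) - s 0) ∂ρ :=
        lintegral_indicator hSm _
    _ ≤ ENNReal.ofReal (Q.totalDegree * (s (Fin.last K) - s 0) / Real.pi) * ρ S := by
        rw [hS]
        exact k3
    _ ≤ ENNReal.ofReal (Q.totalDegree * (s (Fin.last K) - s 0) / Real.pi) * 1 := by
        gcongr
        exact prob_le_one
    _ ≤ ENNReal.ofReal ((s (Fin.last K) - s 0) / Real.pi) := by
        rw [mul_one]
        refine ENNReal.ofReal_le_ofReal ?_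
        have hp := Real.pi_pos
        have hd : (Q.totalDegree : ℝ) ≤ 1 := by exact_mod_cast hdeg
        gcongr
        nlinarith

theorem alt_lin {μ : Measure MW} [IsProbabilityMeasure μ] (hs : IsStationary μ)
    (h2 : Integrable (fun f : MW => f 0 ^ 2) μ) {k : ℕ} (w : Fin k → ℂ) (t : Fin k → ℝ) {v : ℂ}
    (hv : ‖v‖ ≤ 1) {K : ℕ} {s : Fin (K + 1) → ℝ} (hsm : StrictMono s) (c : ℝ) {ε : ℝ}
    (hε : 0 < ε) :
    ∑ m ∈ Finset.Icc 1 K, μ.real {f : MW |
      Alt c ε (fun i => lin (fun j => w j + s i * v) t f) m} ≤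
      (s (Fin.last K) - s 0) / Real.pi := by
  have hp : IsProbabilityMeasure (μ.map (lwave w t)) :=
    Measure.isProbabilityMeasure_map (lwave_meas w t).aemeasurable
  have h := alt_sum (lwave_stat w t hs) (lwave_i2 hs h2 w t) hv hsm c hε
  have mA : ∀ m, MeasurableSet {f : MW | Alt c ε (fun i => f (s i * v)) m} := by
    intro m
    have h4 : IsClosed {y : Fin (K + 1) → ℝ | Alt c ε y m} :=
      Alt_closed (T := Fin (K + 1) → ℝ) c ε (φ := fun y => y) (fun i => continuous_apply i) m
    have h5 : Measurable fun (f : MW) (i : Fin (K + 1)) => f (s i * v) :=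
      measurable_pi_iff.2 fun i => evm _
    exact h5 h4.measurableSet
  have e : ∀ m, (μ.map (lwave w t)) {f : MW | Alt c ε (fun i => f (s i * v)) m} =
      μ {f : MW | Alt c ε (fun i => lin (fun j => w j + s i * v) t f) m} := by
    intro m
    rw [Measure.map_apply (lwave_meas w t) (mA m)]
    congr 1
    ext f
    have e2 : (fun i => lwave w t f (s i * v)) = fun i => lin (fun j => w j + s i * v) t f := by
      funext i
      rw [lwave_apply]
      unfold lin
      exact Finset.sum_congr rfl fun j _ => by rw [add_comm]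
    show Alt c ε (fun i => lwave w t f (s i * v)) m ↔ _
    rw [e2]
    rfl
  simp only [e] at h
  have hnn : 0 ≤ (s (Fin.last K) - s 0) / Real.pi :=
    div_nonneg (sub_nonneg.2 (hsm.monotone (Fin.zero_le _))) Real.pi_pos.le
  have h3 := ENNReal.toReal_le_of_le_ofReal hnn h
  rw [ENNReal.toReal_sum fun m _ => measure_ne_top _ _] at h3
  exact h3

end Pool.Agent.U389.ZL
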