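import Pool.Agent.U389.ZL.E

/-!
# Alternations: quantum ergodic eigenfunctions
-/

set_option autoImplicit false
open MeasureTheory Filter Topology Complex
open scoped ContDiff ENNReal

namespace Pool.Agent.U389.ZL

open Pool.Agent.W745.RW (lap dx dy)
open Pool.Agent.N661.BR
open Pool.Agent.U26.SB (ConvergesAlong resc_zero)
open Pool.Agent.U26.SG (S_PL ex_cutoff exh_planar)

theorem areasN {σ : ℕ → ℕ} {χ : ℝ → ℝ} {Ω : Set ℂ} (ho : IsOpen Ω) (hb : Bornology.IsBounded Ω)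
    (hne : Ω.Nonempty) (hχ : IsCutoff χ) {lam : ℕ → ℝ} (hl : ∀ n, 0 < lam n) {u : ℕ → ℂ → ℝ}
    (hu : ∀ n, ContDiffOn ℝ ∞ (u n) Ω) {μ : Measure MW} [IsProbabilityMeasure μ]
    (h : ConvergesAlong σ χ Ω lam u μ) {N : ℕ} (W : Fin N → ℂ)
    {F : Set (EuclideanSpace ℝ (Fin N))} (hF : IsClosed F) {ε : ℝ} (hε : 0 < ε) :
    ∀ᶠ n in atTop,
      volume.real {z | z ∈ Ω ∧
        (WithLp.toLp 2 fun i => resc χ Ω (lam (σ n)) (u (σ n)) z (W i)) ∈ F} ≤
      (μ.real {f : MW | (WithLp.toLp 2 fun i => f (W i)) ∈ F} + ε) * volume.real Ω := by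
  have hfin : volume Ω ≠ ⊤ := hb.measure_lt_top.ne
  have h0 : volume Ω ≠ 0 := (ho.measure_pos volume hne).ne'
  have hV : 0 < volume.real Ω := ENNReal.toReal_pos h0 hfin
  obtain ⟨Q, hQ⟩ : ∃ Q : Measure ℂ, Q = (volume Ω)⁻¹ • volume.restrict Ω := ⟨_, rfl⟩
  have hQp : IsProbabilityMeasure Q := by
    constructor
    rw [hQ, Measure.smul_apply, Measure.restrict_apply_univ, smul_eq_mul,
      ENNReal.inv_mul_cancel h0 hfin]
  obtain ⟨X, hX⟩ : ∃ X : ℕ → ℂ → EuclideanSpace ℝ (Fin N), X = fun n z =>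
      WithLp.toLp 2 fun i => resc χ Ω (lam (σ n)) (u (σ n)) z (W i) := ⟨_, rfl⟩
  have hlp : Measurable fun y : Fin N → ℝ => (WithLp.toLp 2 y : EuclideanSpace ℝ (Fin N)) :=
    (PiLp.continuous_toLp 2 _).measurable
  have hrm : ∀ (n : ℕ) (y : ℂ), AEMeasurable (fun z => resc χ Ω (lam (σ n)) (u (σ n)) z y) Q := by
    intro n y
    have h1 : AEMeasurable (fun z => resc χ Ω (lam (σ n)) (u (σ n)) z y) (volume.restrict Ω) :=
      (Pool.Agent.N163.BR.resc_meas ho hb hχ (hl _) (hu _).continuousOn _).aemeasurable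
    rw [hQ]
    exact h1.smul_measure _
  have hXm : ∀ n, AEMeasurable (X n) Q := by
    intro n
    rw [hX]
    exact hlp.comp_aemeasurable (aemeasurable_pi_iff.2 fun i => hrm n (W i))
  obtain ⟨G, hG⟩ : ∃ G : MW → EuclideanSpace ℝ (Fin N),
    G = fun f => WithLp.toLp 2 fun i => f (W i) := ⟨_, rfl⟩
  have hGm : Measurable G := by
    rw [hG]
    exact hlp.comp (measurable_pi_iff.2 fun i => evm (W i))
  have hνp : IsProbabilityMeasure (μ.map G) := Measure.isProbabilityMeasure_map hGm.aemeasurable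
  have key := closed_leE (Q := Q) (X := X) (ν := μ.map G) hXm (fun τ => by
    have h1 := h N W τ
    have e1 : ∀ n z, (∑ j, τ j * resc χ Ω (lam (σ n)) (u (σ n)) z (W j)) =
        ∑ i, τ i * X n z i := by
      intro n z
      rw [hX]
    have e2 : ∀ f : MW, lin W τ f = ∑ i, τ i * G f i := by
      intro f
      rw [hG]
      rfl
    simp only [e1, e2] at h1
    rw [integral_map hGm.aemeasurable (by fun_prop)]
    have e3 : ∀ n, ∫ z, Complex.exp (I * ((∑ i, τ i * X n z i : ℝ) : ℂ)) ∂Q =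
        (1 / volume.real Ω : ℝ) * ∫ z in Ω,
          Complex.exp (I * ((∑ i, τ i * X n z i : ℝ) : ℂ)) := by
      intro n
      rw [hQ, integral_smul_measure, ENNReal.toReal_inv, Complex.real_smul, one_div]
      rfl
    simp only [e3]
    exact h1) hF hε
  filter_upwards [key] with n hn
  have e4 : (μ.map G).real F = μ.real {f : MW | (WithLp.toLp 2 fun i => f (W i)) ∈ F} := by
    rw [map_measureReal_apply hGm hF.measurableSet, hG]
    rfl
  have e5 : Q.real {z | X n z ∈ F} = (volume.real Ω)⁻¹ *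
      volume.real {z | z ∈ Ω ∧
        (WithLp.toLp 2 fun i => resc χ Ω (lam (σ n)) (u (σ n)) z (W i)) ∈ F} := by
    rw [measureReal_def, hQ, Measure.smul_apply, smul_eq_mul, ENNReal.toReal_mul,
      ENNReal.toReal_inv, Measure.restrict_apply' ho.measurableSet, Set.inter_comm, hX]
    rfl
  rw [e4, e5] at hn
  have h5 := mul_le_mul_of_nonneg_left hn hV.le
  rw [← mul_assoc, mul_inv_cancel₀ hV.ne', one_mul, mul_comm] at h5
  exact h5

theorem areasAlt {σ : ℕ → ℕ} {χ : ℝ → ℝ} {Ω : Set ℂ} (ho : IsOpen Ω) (hb : Bornology.IsBounded Ω)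
    (hne : Ω.Nonempty) (hχ : IsCutoff χ) {lam : ℕ → ℝ} (hl : ∀ n, 0 < lam n) {u : ℕ → ℂ → ℝ}
    (hu : ∀ n, ContDiffOn ℝ ∞ (u n) Ω) {μ : Measure MW} [IsProbabilityMeasure μ]
    (h : ConvergesAlong σ χ Ω lam u μ) {k : ℕ} (w : Fin k → ℂ) (t : Fin k → ℝ) (v : ℂ) {K : ℕ}
    (s : Fin (K + 1) → ℝ) (c ε : ℝ) (m : ℕ) {η : ℝ} (hη : 0 < η) :
    ∀ᶠ n in atTop,
      volume.real {z | z ∈ Ω ∧ Alt c ε (fun i =>
        ∑ j, t j * resc χ Ω (lam (σ n)) (u (σ n)) z (w j + s i * v)) m} ≤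
      (μ.real {f : MW | Alt c ε (fun i => lin (fun j => w j + s i * v) t f) m} + η) *
        volume.real Ω := by
  have hF : IsClosed {y : EuclideanSpace ℝ (Fin ((K + 1) * k)) |
      Alt c ε (fun i => ∑ j, t j * y (finProdFinEquiv (i, j))) m} :=
    Alt_closed c ε (φ := fun (y : EuclideanSpace ℝ (Fin ((K + 1) * k))) i =>
      ∑ j, t j * y (finProdFinEquiv (i, j))) (fun i => by fun_prop) m
  have key := areasN ho hb hne hχ hl hu h (W := fun p : Fin ((K + 1) * k) =>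
    w (finProdFinEquiv.symm p).2 + s (finProdFinEquiv.symm p).1 * v) hF hη
  filter_upwards [key] with n hn
  simpa only [Set.mem_ofPred_eq, Equiv.symm_apply_apply, lin] using hn

theorem planarAlt (hPL : S_PL) {Ω : Set ℂ} (hΩ : IsOpen Ω) (hb : Bornology.IsBounded Ω)
    (hne : Ω.Nonempty) {lam : ℕ → ℝ} (hpos : ∀ n, 0 < lam n) (hlam : Tendsto lam atTop atTop)
    {u : ℕ → ℂ → ℝ} (hu : ∀ n, ContDiffOn ℝ ∞ (u n) Ω)
    (heq : ∀ n, ∀ z ∈ Ω, lap (u n) z + lam n * u n z = 0) (hqe : IsQuantumErgodic Ω lam u)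
    {χ : ℝ → ℝ} (hχ : IsCutoff χ) {k : ℕ} (w : Fin k → ℂ) (t : Fin k → ℝ) {v : ℂ} (hv : ‖v‖ ≤ 1)
    {K : ℕ} {s : Fin (K + 1) → ℝ} (hsm : StrictMono s) (c : ℝ) {ε η : ℝ} (hε : 0 < ε)
    (hη : 0 < η) :
    ∀ᶠ n in atTop,
      ∑ m ∈ Finset.Icc 1 K, volume.real {z | z ∈ Ω ∧ Alt c ε (fun i =>
        ∑ j, t j * resc χ Ω (lam n) (u n) z (w j + s i * v)) m} ≤
      ((s (Fin.last K) - s 0) / Real.pi + η) * volume.real Ω := by
  by_contra hcon
  rw [Filter.not_eventually] at hcon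
  obtain ⟨τ, hτ, hτP⟩ := Filter.extraction_of_frequently_atTop hcon
  have hlam' : Tendsto (lam ∘ τ) atTop atTop := hlam.comp hτ.tendsto_atTop
  have hqe' : IsQuantumErgodic Ω (lam ∘ τ) (u ∘ τ) := fun φ hφ k =>
    (hqe φ hφ k).comp hτ.tendsto_atTop
  obtain ⟨σ, μ, hσ, hμp, hμ⟩ := hPL Ω hΩ hb hne (lam ∘ τ) (fun n => hpos _) hlam' (u ∘ τ)
    (fun n => hu _) (fun n => heq _) hqe' χ hχ
  obtain ⟨hst, h2⟩ := lim_data (lam := lam ∘ τ) (u := u ∘ τ) hΩ hb hne (fun n => hpos _) hlam'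
    (fun n => hu _) (fun n => heq _) hqe' hχ ⟨σ, hσ, hμ⟩
  have hK : 0 < η / (K + 1) := by positivity
  have h1 : ∀ᶠ n in atTop, ∀ m ∈ Finset.Icc 1 K,
      volume.real {z | z ∈ Ω ∧ Alt c ε (fun i =>
        ∑ j, t j * resc χ Ω ((lam ∘ τ) (σ n)) ((u ∘ τ) (σ n)) z (w j + s i * v)) m} ≤
      (μ.real {f : MW | Alt c ε (fun i => lin (fun j => w j + s i * v) t f) m} +
        η / (K + 1)) * volume.real Ω := by
    rw [Filter.eventually_all_finset]
    intro m _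
    exact areasAlt (lam := lam ∘ τ) (u := u ∘ τ) hΩ hb hne hχ (fun n => hpos _)
      (fun n => hu _) hμ w t v s c ε m hK
  obtain ⟨n, hn⟩ := h1.exists
  refine hτP (σ n) ((Finset.sum_le_sum hn).trans ?_)
  rw [← Finset.sum_mul, Finset.sum_add_distrib]
  gcongr
  · exact alt_lin hst h2 w t hv hsm c hε
  · rw [Finset.sum_const, Nat.card_Icc, Nat.add_sub_cancel, nsmul_eq_mul]
    have : (K : ℝ) * (η / (K + 1)) = η * (K / (K + 1)) := by ring
    rw [this]
    have h3 : (K : ℝ) / (K + 1) ≤ 1 := by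
      rw [div_le_one (by positivity)]
      linarith
    nlinarith

theorem planarAlt_pt (hPL : S_PL) {Ω : Set ℂ} (hΩ : IsOpen Ω) (hb : Bornology.IsBounded Ω)
    (hne : Ω.Nonempty) {lam : ℕ → ℝ} (hpos : ∀ n, 0 < lam n) (hlam : Tendsto lam atTop atTop)
    {u : ℕ → ℂ → ℝ} (hu : ∀ n, ContDiffOn ℝ ∞ (u n) Ω)
    (heq : ∀ n, ∀ z ∈ Ω, lap (u n) z + lam n * u n z = 0) (hqe : IsQuantumErgodic Ω lam u)
    {v : ℂ} (hv : ‖v‖ ≤ 1) {K : ℕ} {s : Fin (K + 1) → ℝ} (hsm : StrictMono s) (c : ℝ) {ε η : ℝ}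
    (hε : 0 < ε) (hη : 0 < η) :
    ∀ᶠ n in atTop,
      ∑ m ∈ Finset.Icc 1 K, volume.real {z | z ∈ Ω ∧
        Alt c ε (fun i => u n (z + s i * v / (√(lam n) : ℝ))) m} ≤
      ((s (Fin.last K) - s 0) / Real.pi + η) * volume.real Ω := by
  obtain ⟨χ, hχ⟩ := ex_cutoff
  obtain ⟨δ, hδ, hχ1⟩ := hχ.one
  have hfin : volume Ω ≠ ⊤ := hb.measure_lt_top.ne
  have h0 : volume Ω ≠ 0 := (hΩ.measure_pos volume hne).ne'
  have hV : 0 < volume.real Ω := ENNReal.toReal_pos h0 hfin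
  obtain ⟨h, hh, hlay⟩ := layer hΩ hb hne (ε := η / 2 / (K + 1) * volume.real Ω)
    (by positivity)
  obtain ⟨R, hR0, hR⟩ : ∃ R : ℝ, 0 < R ∧ ∀ i, |s i| ≤ R := by
    refine ⟨1 + ∑ i, |s i|, by positivity, fun i => ?_⟩
    have := Finset.single_le_sum (f := fun i => |s i|) (fun i _ => abs_nonneg _)
      (Finset.mem_univ i)
    have h1 : |s i| ≤ ∑ i, |s i| := this
    linarith
  have hsq : Tendsto (fun n => √(lam n)) atTop atTop := Real.tendsto_sqrt_atTop.comp hlam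
  have hlarge : ∀ᶠ n in atTop, R / (δ * h) ≤ √(lam n) := hsq.eventually_ge_atTop _
  filter_upwards [planarAlt hPL hΩ hb hne hpos hlam hu heq hqe hχ (k := 1) (fun _ => 0)
    (fun _ => 1) hv hsm c hε (half_pos hη), hlarge] with n hn hl
  have hsub : ∀ m, {z | z ∈ Ω ∧ Alt c ε (fun i => u n (z + s i * v / (√(lam n) : ℝ))) m} ⊆
      {z | z ∈ Ω ∧ Alt c ε (fun i => ∑ j : Fin 1, (fun _ => (1 : ℝ)) j *
          resc χ Ω (lam n) (u n) z ((fun _ => (0 : ℂ)) j + s i * v)) m} ∪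
      {z | z ∈ Ω ∧ Metric.infDist z (frontier Ω) < h} := by
    rintro m z ⟨hz, hz2⟩
    by_cases hd : Metric.infDist z (frontier Ω) < h
    · exact Or.inr ⟨hz, hd⟩
    push Not at hd
    refine Or.inl ⟨hz, ?_⟩
    simp only [Finset.univ_unique, Finset.sum_singleton, one_mul, zero_add]
    have hl0 : 0 < √(lam n) := Real.sqrt_pos.2 (hpos n)
    have h1 : ∀ i, resc χ Ω (lam n) (u n) z (s i * v) = u n (z + s i * v / (√(lam n) : ℝ)) := by
      intro i
      unfold resc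
      rw [hχ1 _ (div_nonneg (norm_nonneg _) (mul_nonneg hl0.le Metric.infDist_nonneg)) ?_,
        mul_one]
      have hD : 0 < √(lam n) * Metric.infDist z (frontier Ω) :=
        mul_pos hl0 (lt_of_lt_of_le hh hd)
      rw [div_le_iff₀ hD]
      have h2 : ‖(s i : ℂ) * v‖ ≤ R := by
        rw [norm_mul, Complex.norm_real, Real.norm_eq_abs]
        have := hR i
        nlinarith [abs_nonneg (s i), norm_nonneg v]
      have h3 : R ≤ √(lam n) * (δ * h) := by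
        rwa [div_le_iff₀ (by positivity)] at hl
      calc ‖(s i : ℂ) * v‖ ≤ R := h2
        _ ≤ √(lam n) * (δ * h) := h3
        _ ≤ √(lam n) * (δ * Metric.infDist z (frontier Ω)) := by gcongr
        _ = δ * (√(lam n) * Metric.infDist z (frontier Ω)) := by ring
    simp only [h1]
    exact hz2
  have hfin2 : ∀ A : Set ℂ, A ⊆ Ω → volume A ≠ ⊤ := fun A hA =>
    (lt_of_le_of_lt (measure_mono hA) hb.measure_lt_top).ne
  have hle : ∀ m ∈ Finset.Icc 1 K, volume.real {z | z ∈ Ω ∧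
        Alt c ε (fun i => u n (z + s i * v / (√(lam n) : ℝ))) m} ≤
      volume.real {z | z ∈ Ω ∧ Alt c ε (fun i => ∑ j : Fin 1, (fun _ => (1 : ℝ)) j *
          resc χ Ω (lam n) (u n) z ((fun _ => (0 : ℂ)) j + s i * v)) m} +
        η / 2 / (K + 1) * volume.real Ω := by
    intro m _
    refine (measureReal_mono (hsub m) ?_).trans ((measureReal_union_le _ _).trans ?_)
    · exact hfin2 _ (Set.union_subset (fun z hz => hz.1) fun z hz => hz.1)
    · exact add_le_add le_rfl hlay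
  refine (Finset.sum_le_sum hle).trans ?_
  rw [Finset.sum_add_distrib]
  have h5 : ∑ m ∈ Finset.Icc 1 K, η / 2 / ((K : ℝ) + 1) * volume.real Ω ≤
      η / 2 * volume.real Ω := by
    rw [Finset.sum_const, Nat.card_Icc, Nat.add_sub_cancel, nsmul_eq_mul]
    have : (K : ℝ) * (η / 2 / (K + 1) * volume.real Ω) =
      η / 2 * volume.real Ω * (K / (K + 1)) := by ring
    rw [this]
    have h3 : (K : ℝ) / (K + 1) ≤ 1 := by
      rw [div_le_one (by positivity)]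
      linarith
    have h4 : 0 < η / 2 * volume.real Ω := by positivity
    nlinarith
  calc _ ≤ ((s (Fin.last K) - s 0) / Real.pi + η / 2) * volume.real Ω +
        η / 2 * volume.real Ω := add_le_add hn h5
    _ = ((s (Fin.last K) - s 0) / Real.pi + η) * volume.real Ω := by ring

end Pool.Agent.U389.ZL
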